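import Mathlib
import Pool.Agent.Lib.helper20.FermatK

open Pool.Agent.Lib.helper20.FermatK

namespace Pool.Agent.Results.MP_82795f_nt.Infinite

theorem result : (∀ t : ℕ, 3 ≤ t → S ⊆ K (2 ^ t - 1)) ∧ {c : ℕ | 2 ≤ c ∧ S ⊆ K c}.Infinite := by
  refine ⟨fun t ht => sub_K ht, ?_⟩
  refine Set.infinite_of_injective_forall_mem (f := fun t : ℕ => 2 ^ (t + 3) - 1) ?_ ?_
  · intro a b h
    have h1 := Nat.one_le_two_pow (n := a + 3)
    have h2 := Nat.one_le_two_pow (n := b + 3)
    have h3 : 2 ^ (a + 3) = 2 ^ (b + 3) := by simp only at h; omega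
    have := Nat.pow_right_injective (le_refl 2) h3
    omega
  · intro t
    refine ⟨?_, sub_K (by omega)⟩
    have := Nat.one_le_two_pow (n := t)
    rw [pow_add]; omega

end Pool.Agent.Results.MP_82795f_nt.Infinite
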