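import Mathlib
import Pool.Agent.Lib.helper20.FermatK

open Pool.Agent.Lib.helper20.FermatK

namespace Pool.Agent.Results.MP_82795f_nt.NotThree

lemma mem : 514 ∈ S := ⟨257, 3, by norm_num, by norm_num, by norm_num, by norm_num⟩

lemma not_mem : 514 ∉ K 12 := fun h => by
  have := h.2 42 (by norm_num) (by norm_num)
  revert this
  decide +kernel

theorem result : (514 ∈ S ∧ 514 ∉ K 12) ∧ ¬ ∀ c : ℕ, 0 < c → 3 ∣ c → S ⊆ K c :=
  ⟨⟨mem, not_mem⟩, fun h => not_mem (h 12 (by norm_num) (by norm_num) mem)⟩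

end Pool.Agent.Results.MP_82795f_nt.NotThree
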